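import Pool.Agent.MP_6374aa_gt.Glue2

namespace Pool.Agent.MP_6374aa_gt.Old.AllOrientable

open Pool.Agent.MP_6374aa_gt

theorem result (N N' : Side2)
    (h : Nonempty (@Homeomorph (Bdry N.Γ) (Bdry N'.Γ) (bdryTop N.Γ) (bdryTop N'.Γ)))
    (j : N'.ι) (hj : Nontrivial (N'.P j).Λ) :
    ∃ i : N.ι, Nonempty ((N.P i).Λ ≃* (N'.P j).Λ) ∧
      (IsLens (N.P i) → IsLens (N'.P j) →
        Nonempty (Rl N.K (N.P i).A ≃ₜ Rl N'.K (N'.P j).A)) :=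
  main2_ok N N' h j hj

end Pool.Agent.MP_6374aa_gt.Old.AllOrientable
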